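import Mathlib
import Pool.Agent.Y325.GR.Stm

/-!
# GR-GRAD: from actions of a finite abelian 2-group to gradings
-/

set_option autoImplicit false
set_option linter.all false

universe u v w

open Pool.Agent.H89R3.Gr DirectSum Pool.Agent.Y325.GR

namespace Pool.Agent.Y528.GR

section lin

variable {F : Type u} [Field F] {V : Type v} [AddCommGroup V] [Module F V] {G : Type w}
  [DecidableEq G] (A : G → Submodule F V) (hAi : DirectSum.IsInternal A)

/-- the components -/
noncomputable def Dc : V ≃ₗ[F] (⨁ i, A i) :=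
  (LinearEquiv.ofBijective (DirectSum.coeLinearMap A) hAi).symm

theorem Dc_same {g : G} {x : V} (hx : x ∈ A g) : Dc A hAi x g = ⟨x, hx⟩ :=
  DirectSum.IsInternal.ofBijective_coeLinearMap_same hAi (⟨x, hx⟩ : A g)

theorem Dc_ne {g g' : G} {x : V} (hx : x ∈ A g) (h : g ≠ g') : Dc A hAi x g' = 0 :=
  DirectSum.IsInternal.ofBijective_coeLinearMap_of_ne hAi h (⟨x, hx⟩ : A g)

theorem Dc_ext {x y : V} (h : ∀ g, Dc A hAi x g = Dc A hAi y g) : x = y :=
  (Dc A hAi).injective (DFinsupp.ext h)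

theorem mem_of {g : G} {x : V} (h : ∀ g', g' ≠ g → Dc A hAi x g' = 0) : x ∈ A g := by
  have h1 : x = (Dc A hAi x g : V) := by
    apply Dc_ext A hAi
    intro g'
    by_cases hg : g' = g
    · subst hg
      rw [Dc_same A hAi (Dc A hAi x g').2]
    · rw [h g' hg, Dc_ne A hAi (Dc A hAi x g).2 (Ne.symm hg)]
  rw [h1]
  exact (Dc A hAi x g).2

/-- multiplication of the components by scalars -/
noncomputable def phl (c : G → F) : V →ₗ[F] V :=
  (Dc A hAi).symm.toLinearMap ∘ₗ (DirectSum.lmap fun g => c g • LinearMap.id) ∘ₗ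
    (Dc A hAi).toLinearMap

theorem Dc_phl (c : G → F) (x : V) (g : G) : Dc A hAi (phl A hAi c x) g = c g • Dc A hAi x g := by
  have : Dc A hAi (phl A hAi c x) = (DirectSum.lmap fun g => c g • LinearMap.id) (Dc A hAi x) :=
    (Dc A hAi).apply_symm_apply _
  rw [this]
  rfl

theorem phl_mem (c : G → F) {g : G} {x : V} (hx : x ∈ A g) : phl A hAi c x = c g • x := by
  apply Dc_ext A hAi
  intro g'
  rw [Dc_phl, map_smul]
  by_cases hg : g = g'
  · subst hg
    rfl
  · rw [Dc_ne A hAi hx hg, smul_zero]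
    have : (c g • Dc A hAi x) g' = c g • (Dc A hAi x g') := rfl
    rw [this, Dc_ne A hAi hx hg, smul_zero]

theorem phl_comp (c d : G → F) (x : V) :
    phl A hAi c (phl A hAi d x) = phl A hAi (fun g => c g * d g) x := by
  apply Dc_ext A hAi
  intro g
  rw [Dc_phl, Dc_phl, Dc_phl, mul_smul]

theorem phl_one (x : V) : phl A hAi (fun _ => 1) x = x := by
  apply Dc_ext A hAi
  intro g
  rw [Dc_phl, one_smul]

end lin

theorem smul_aux {F : Type u} [Field F] {V : Type v} [AddCommGroup V] [Module F V]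
    (W : Submodule F V) (s t : F) (y : W) (h : s • y = t • y) : s = t ∨ y = 0 := by
  rcases eq_or_ne s t with h' | h'
  · exact Or.inl h'
  · right
    have h1 := sub_smul s t y
    rw [h, sub_self] at h1
    exact (smul_eq_zero.1 h1).resolve_left (sub_ne_zero.2 h')

section alg

variable {F : Type u} [Field F] {V : Type v} [Ring V] [Algebra F V] {G : Type w}
  [AddCommGroup G] [DecidableEq G] (A : G → Submodule F V) (hAi : DirectSum.IsInternal A)

include hAi in
theorem phl_mul (hmul : ∀ i j, ∀ x ∈ A i, ∀ y ∈ A j, x * y ∈ A (i + j)) (c : G → F)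
    (hc : ∀ i j, c (i + j) = c i * c j) (x y : V) :
    phl A hAi c (x * y) = phl A hAi c x * phl A hAi c y := by
  have htop : (⨆ i, A i) = ⊤ := hAi.submodule_iSup_eq_top
  have hx : x ∈ ⨆ i, A i := by rw [htop]; trivial
  have hy : y ∈ ⨆ i, A i := by rw [htop]; trivial
  induction hx using Submodule.iSup_induction' with
  | mem i x hx =>
    induction hy using Submodule.iSup_induction' with
    | mem j y hy =>
      rw [phl_mem A hAi c (hmul i j x hx y hy), phl_mem A hAi c hx, phl_mem A hAi c hy, hc,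
        smul_mul_smul_comm]
    | zero => simp
    | add y z _ _ h1 h2 => rw [mul_add, map_add, map_add, h1, h2, mul_add]
  | zero => simp
  | add x z _ _ h1 h2 => rw [add_mul, map_add, map_add, h1, h2, add_mul]

end alg

theorem t_GRAD (F : Type u) [Field F] (h2 : (2:F) ≠ 0) (hA : ActStmt.{u, max u w} F)
    (L : Type v) [AddCommGroup L] [Module F L] (b : Module.Basis ℕ F L) (G : Type w)
    [AddCommGroup G] [Finite G] [DecidableEq G] (r : ℕ) (hG : ∀ g : G, (2^r) • g = 0) (zeta : F)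
    (hz : IsPrimitiveRoot zeta (2^r)) (A : G → Submodule F (ExteriorAlgebra F L))
    (hAi : DirectSum.IsInternal A) (hmul : ∀ i j, ∀ x ∈ A i, ∀ y ∈ A j, x * y ∈ A (i + j)) :
    ∃ B : G → Submodule F (ExteriorAlgebra F L), DirectSum.IsInternal B ∧
      (∀ i j, ∀ x ∈ B i, ∀ y ∈ B j, x * y ∈ B (i+j)) ∧
      (∀ n, ∃ g, ExteriorAlgebra.ι F (b n) ∈ B g) ∧
      ∃ f : ExteriorAlgebra F L ≃ₐ[F] ExteriorAlgebra F L, ∀ g x, x ∈ A g ↔ f x ∈ B g := by
  classical
  haveI : NeZero (2 ^ r : ℕ) := ⟨pow_ne_zero _ (by norm_num)⟩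
  haveI hen : HasEnoughRootsOfUnity F (2 ^ r) := ⟨⟨zeta, hz⟩, inferInstance⟩
  have hexp : Monoid.exponent (Multiplicative G) ∣ 2 ^ r := by
    rw [Monoid.exponent_dvd_iff_forall_pow_eq_one]
    intro g
    have := hG g.toAdd
    exact this
  haveI : NeZero (Monoid.exponent (Multiplicative G)) :=
    ⟨fun h => by rw [h] at hexp; exact pow_ne_zero r (by norm_num : (2:ℕ) ≠ 0) (Nat.eq_zero_of_zero_dvd hexp)⟩
  haveI hen2 : HasEnoughRootsOfUnity F (Monoid.exponent (Multiplicative G)) :=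
    HasEnoughRootsOfUnity.of_dvd F hexp
  haveI : Finite (Multiplicative G →* Fˣ) :=
    Finite.of_equiv _ (CommGroup.monoidHom_mulEquiv_of_hasEnoughRootsOfUnity (Multiplicative G)
      F).some.toEquiv.symm
  -- the coefficients
  let c : (Multiplicative G →* Fˣ) → G → F := fun χ g => (χ (Multiplicative.ofAdd g) : F)
  have hc : ∀ χ i j, c χ (i + j) = c χ i * c χ j := by
    intro χ i j
    simp only [c, ofAdd_add, map_mul, Units.val_mul]
  have hcm : ∀ χ ψ, c (χ * ψ) = fun g => c χ g * c ψ g := by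
    intro χ ψ
    funext g
    simp only [c, MonoidHom.mul_apply, Units.val_mul]
  have hc1 : c 1 = fun _ => 1 := by
    funext g
    simp only [c, MonoidHom.one_apply, Units.val_one]
  let φl : (Multiplicative G →* Fˣ) → (ExteriorAlgebra F L →ₗ[F] ExteriorAlgebra F L) :=
    fun χ => phl A hAi (c χ)
  have hmulφ : ∀ χ x y, φl χ (x * y) = φl χ x * φl χ y := fun χ x y =>
    phl_mul A hAi hmul (c χ) (hc χ) x y
  have hcomp : ∀ χ ψ x, φl (χ * ψ) x = φl χ (φl ψ x) := by
    intro χ ψ x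
    simp only [φl, phl_comp, hcm]
  have hone : ∀ x, φl 1 x = x := by
    intro x
    simp only [φl, hc1, phl_one]
  have hinv : ∀ χ : Multiplicative G →* Fˣ, χ * χ⁻¹ = 1 := fun χ => mul_inv_cancel χ
  have hinv' : ∀ χ : Multiplicative G →* Fˣ, χ⁻¹ * χ = 1 := fun χ => inv_mul_cancel χ
  have hφ1 : ∀ χ, φl χ 1 = 1 := by
    intro χ
    have h1 : φl χ (φl χ⁻¹ 1) = 1 := by rw [← hcomp, hinv, hone]
    have h3 : φl χ 1 * φl χ (φl χ⁻¹ 1) = φl χ (φl χ⁻¹ 1) := by rw [← hmulφ, one_mul]
    rw [h1, mul_one] at h3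
    exact h3
  let a : (Multiplicative G →* Fˣ) → (ExteriorAlgebra F L →ₐ[F] ExteriorAlgebra F L) :=
    fun χ => AlgHom.ofLinearMap (φl χ) (hφ1 χ) (hmulφ χ)
  have ha : ∀ χ x, a χ x = φl χ x := fun χ x => rfl
  have hac : ∀ χ ψ, χ * ψ = 1 → (a χ).comp (a ψ) = AlgHom.id F _ := by
    intro χ ψ h
    apply AlgHom.ext
    intro x
    change φl χ (φl ψ x) = x
    rw [← hcomp, h, hone]
  let φ : (Multiplicative G →* Fˣ) → (ExteriorAlgebra F L ≃ₐ[F] ExteriorAlgebra F L) := fun χ =>
    AlgEquiv.ofAlgHom (a χ) (a χ⁻¹) (hac _ _ (hinv χ)) (hac _ _ (hinv' χ))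
  have hφ : ∀ χ x, φ χ x = φl χ x := fun χ x => rfl
  -- transport to the model
  let β : ExteriorAlgebra F L ≃ₐ[F] E F := mapE b.repr
  have hβ : ∀ n, β (ExteriorAlgebra.ι F (b n)) = e n := by
    intro n
    change mapE b.repr (ExteriorAlgebra.ι F (b n)) = e n
    rw [mapE_ι, Module.Basis.repr_self]; rfl
  let ρ : (Multiplicative G →* Fˣ) →* (E F ≃ₐ[F] E F) :=
    { toFun := fun χ => (β.symm.trans (φ χ)).trans β
      map_one' := by
        ext x
        change β (φl 1 (β.symm x)) = x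
        rw [hone, AlgEquiv.apply_symm_apply]
      map_mul' := fun χ ψ => by
        ext x
        change β (φl (χ * ψ) (β.symm x)) = β (φl χ (β.symm (β (φl ψ (β.symm x)))))
        rw [AlgEquiv.symm_apply_apply, hcomp] }
  have hρ : ∀ χ x, ρ χ x = β (φl χ (β.symm x)) := fun χ x => rfl
  have hpow : ∀ χ : Multiplicative G →* Fˣ, χ ^ (2 ^ r) = 1 := by
    intro χ
    refine MonoidHom.ext fun g => ?_
    have h1 : g ^ (2 ^ r) = 1 := (Monoid.exponent_dvd_iff_forall_pow_eq_one.1 hexp) g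
    have h3 : (χ ^ (2 ^ r)) g = 1 := by
      rw [MonoidHom.pow_apply, ← map_pow, h1, map_one]
    rw [h3, MonoidHom.one_apply]
  obtain ⟨Ψ, hΨ⟩ := hA r zeta hz (Multiplicative G →* Fˣ) hpow ρ
  let Θ : ExteriorAlgebra F L ≃ₐ[F] ExteriorAlgebra F L := (β.trans Ψ).trans β.symm
  have hΘ : ∀ χ n, ∃ t : F, φl χ (Θ (ExteriorAlgebra.ι F (b n))) =
      t • Θ (ExteriorAlgebra.ι F (b n)) := by
    intro χ n
    obtain ⟨t, ht⟩ := hΨ χ n
    refine ⟨t, ?_⟩
    have e1 : Θ (ExteriorAlgebra.ι F (b n)) = β.symm (Ψ (e n)) := by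
      change β.symm (Ψ (β (ExteriorAlgebra.ι F (b n)))) = _
      rw [hβ]
    have h1 : Ψ.symm (ρ χ (Ψ (e n))) = t • e n := ht
    have h3 : ρ χ (Ψ (e n)) = t • Ψ (e n) := by
      have := congrArg Ψ h1
      rwa [AlgEquiv.apply_symm_apply, map_smul] at this
    rw [hρ] at h3
    have h4 := congrArg β.symm h3
    rw [AlgEquiv.symm_apply_apply, map_smul] at h4
    rw [e1, h4]
  refine ⟨fun i => (A i).map Θ.symm.toLinearMap, ?_, ?_, ?_, Θ.symm, ?_⟩
  · rw [DirectSum.isInternal_submodule_iff_iSupIndep_and_iSup_eq_top] at hAi ⊢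
    obtain ⟨h1, h3⟩ := hAi
    refine ⟨h1.map_orderIso (Submodule.orderIsoMapComap Θ.symm.toLinearEquiv), ?_⟩
    rw [← Submodule.map_iSup, h3, Submodule.map_top, LinearMap.range_eq_top]
    exact Θ.symm.surjective
  · rintro i j _ ⟨x, hx, rfl⟩ _ ⟨y, hy, rfl⟩
    refine ⟨x * y, hmul i j x hx y hy, ?_⟩
    exact map_mul Θ.symm x y
  · intro n
    have key : ∃ g, Θ (ExteriorAlgebra.ι F (b n)) ∈ A g := by
      generalize hxx : Θ (ExteriorAlgebra.ι F (b n)) = x
      have hx : ∀ χ, ∃ t : F, φl χ x = t • x := by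
        intro χ
        rw [← hxx]
        exact hΘ χ n
      by_cases h0 : ∀ g, Dc A hAi x g = 0
      · exact ⟨0, mem_of A hAi fun g _ => h0 g⟩
      · push Not at h0
        obtain ⟨g0, hg0⟩ := h0
        refine ⟨g0, mem_of A hAi fun g hg => ?_⟩
        have hne : Multiplicative.ofAdd (g - g0) ≠ 1 := by
          intro h
          apply hg
          exact sub_eq_zero.1 (ofAdd_eq_one.1 h)
        obtain ⟨χ, hχ⟩ := CommGroup.exists_apply_ne_one_of_hasEnoughRootsOfUnity
          (Multiplicative G) F hne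
        obtain ⟨t, ht⟩ := hx χ
        have e1 : ∀ g', c χ g' • Dc A hAi x g' = t • Dc A hAi x g' := by
          intro g'
          have := congrArg (fun y => Dc A hAi y g') ht
          simp only [φl, Dc_phl, map_smul] at this
          exact this
        have e2 : t = c χ g0 := by
          rcases smul_aux (A g0) _ _ _ (e1 g0) with h6 | h6
          · exact h6.symm
          · exact absurd h6 hg0
        rcases smul_aux (A g) _ _ _ (e1 g) with h8 | h8
        · exfalso
          apply hχ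
          have h9 : χ (Multiplicative.ofAdd g) = χ (Multiplicative.ofAdd g0) :=
            Units.ext (h8.trans e2)
          rw [ofAdd_sub, map_div, h9, div_self']
        · exact h8
    obtain ⟨g, hg⟩ := key
    refine ⟨g, Θ (ExteriorAlgebra.ι F (b n)), hg, ?_⟩
    exact Θ.symm_apply_apply _
  · intro i x
    constructor
    · intro hx
      exact ⟨x, hx, rfl⟩
    · rintro ⟨y, hy, hyx⟩
      have : y = x := Θ.symm.injective hyx
      rw [← this]; exact hy

end Pool.Agent.Y528.GR
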